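import Mathlib
import Pool.Agent.Y696.Fin

/-!
# The 2-part of the Birch and Swinnerton-Dyer conjecture for `y² + y = x³` over abelian extensions
of 2-power degree of `ℚ(√-3)`

`F` is the field of third roots of unity, `K / F` is a Galois extension of degree `2 ^ n` with an
Artin map of modulus `c` (so `K / F` is abelian), and `2` is not a cube modulo any prime that
divides `c`. Then `L(E / K, s)` is continued to `ℂ`, `L(E / K, 1) ≠ 0`, `E(K)` is finite of odd
order, `Ш(E / K)` has no element of order two, all the Tamagawa numbers are odd and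
`L(E / K, 1) √|Δ(K)| / Ω` is a unit at every valuation of `ℂ` above `2`. The field `K` has such an
Artin map when it lies in `F(ζ_m)` and `2` is not a cube modulo any prime number that divides `m`.
-/

set_option autoImplicit false

namespace Pool.Agent.Results.MP_9ab903_nt.TwoPartEisenstein

open NumberField IsDedekindDomain Pool.Agent.Y696
open scoped Classical

theorem result (F K : Type) [Field F] [NumberField F] [IsCyclotomicExtension {3} ℚ F] [Field K]
    [NumberField K] [Algebra F K] [IsGalois F K] (n : ℕ) (hn : Module.finrank F K = 2 ^ n) :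
    (∃ Λ : PeriodPair, Λ.g₂ = 0 ∧ Λ.g₃ = -1) ∧
    (∀ (c : 𝓞 F) (art : (𝓞 F ⧸ Ideal.span {c})ˣ →* Gal(K/F)), IsArtin c art →
      (∀ v₀ : HeightOneSpectrum (𝓞 F), c ∈ v₀.asIdeal → ∀ x : 𝓞 F, x ^ 3 - 2 ∉ v₀.asIdeal) →
      (∃ Lf : ℂ → ℂ, MeromorphicOn Lf Set.univ ∧
        (∀ s : ℂ, 3 / 2 < s.re → LSeriesSummable ((fun n : ℤ => (n : ℂ)) ∘ (E27 K).LFunction) s ∧
          Lf s = (E27 K).LSeries s) ∧
        AnalyticAt ℂ Lf 1 ∧ Lf 1 ≠ 0 ∧
        ∀ Λ : PeriodPair, Λ.g₂ = 0 → Λ.g₃ = -1 →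
          ∀ (Γ : Type) [LinearOrderedCommGroupWithZero Γ] (v : Valuation ℂ Γ), v 2 < 1 →
            v (Lf 1 * (Real.sqrt |(discr K : ℝ)| : ℝ) /
              ((2 * |((starRingEnd ℂ) Λ.ω₁ * Λ.ω₂).im| : ℝ) : ℂ) ^ 2 ^ n) = 1) ∧
      Finite (E27 K).toAffine.Point ∧ Odd (Nat.card (E27 K).toAffine.Point) ∧
      (∀ x : Pool.Agent.TH841.NF.D.Sha (E27 K), x + x = 0 → x = 0) ∧
      ∀ v : HeightOneSpectrum (𝓞 K),
        WeierstrassCurve.IsMinimal (v.adicCompletionIntegers K)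
          ((E27 K).baseChange (v.adicCompletion K)) ∧
        ∃ H : AddSubgroup ((E27 K).baseChange (v.adicCompletion K)).toAffine.Point,
          (∀ P, P ∈ H ↔ NonsingRed Valued.v ((E27 K).baseChange (v.adicCompletion K)) P) ∧
          Odd H.index) ∧
    (∀ (m : ℕ) [NeZero m] (L : Type) [Field L] [NumberField L] [Algebra K L] [Algebra F L]
      [IsScalarTower F K L] [IsCyclotomicExtension {m} F L],
      (∀ q : ℕ, q.Prime → q ∣ m → ∀ x : ZMod q, x ^ 3 ≠ 2) →
      (∃ art : (𝓞 F ⧸ Ideal.span {(m : 𝓞 F)})ˣ →* Gal(K/F), IsArtin (m : 𝓞 F) art) ∧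
      ∀ v₀ : HeightOneSpectrum (𝓞 F), (m : 𝓞 F) ∈ v₀.asIdeal →
        ∀ x : 𝓞 F, x ^ 3 - 2 ∉ v₀.asIdeal) := by
  refine ⟨?_, fun c art h hc => all_art hn h hc, ?_⟩
  · obtain ⟨Ω, hΩ, hC⟩ := exists_cur
    exact ⟨_, hC.g2, hC.g3⟩
  · intro m _ L _ _ _ _ _ _ h
    exact art_ex (L := L) m h

end Pool.Agent.Results.MP_9ab903_nt.TwoPartEisenstein
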