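import Pool.Agent.Y702.G.Main
import Pool.Agent.Y702.G.Sel
import Pool.Agent.Y702.G.Sel2
import Pool.Agent.Y702.F.Tam
import Pool.Agent.Y93.G.Inv
import Pool.Agent.Y141.G2.KUMP
import Pool.Agent.Y852.GS.Spl
import Pool.Agent.Y852.GS.Tams
import Pool.Agent.Y852.GS.Mins
import Pool.Agent.Y76.GPar.Par
import Pool.Agent.Y710.CV.Conv
import Pool.Agent.Y46.G2.Emb
import Pool.Agent.Y500.G.FLM
import Pool.Agent.Y67.LZ.Main
import Pool.Agent.Y125.DQ.Main
import Pool.Agent.Y355.G.Desc
import Pool.Agent.Y779.G.Tam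
import Pool.Agent.Y288.G.Perr
import Pool.Agent.Y288.G.Perc
import Pool.Agent.Y238.G.Hasp
import Pool.Agent.Y563.G.Epq
import Pool.Agent.Y255.LT.Fin

/-!
# The 2-part of the Birch and Swinnerton-Dyer conjecture: from `ℚ` to abelian 2-extensions

`W` is the minimal equation of an elliptic curve `E` over `ℚ` with negative discriminant and
`K ⊂ ℚ(ζ_m)` is an abelian number field of degree `2^n` in which the primes that divide `2 Δ` split
completely, with `m` squarefree, prime to `2 Δ` and `a_l(E)` odd for all primes `l` that divide `m`.  If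
the 2-part of the Birch and Swinnerton-Dyer conjecture holds for `E` over `ℚ` and its terms (the order
of `Ш(E/ℚ)[2^∞]`, the Tamagawa product, the order of `E(ℚ)_tors`) are odd then it holds for `E` over `K`,
with all terms odd: continuation and order of the `L`-function, rank, finiteness of `Ш[2^∞]`, and the
formula for `L(E/K, 1) √|Δ_K| / Ω` up to 2-adic units.

The proof.  Algebraic side: a nonzero 2-Selmer group over the 2-extension `K` has a nonzero element
fixed by `Gal(K/ℚ)`.  By the descent with the cubic algebra of `E` it is the class of an element of the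
cubic field over `ℚ`, since `E(K)` has no points of order two.  It satisfies the local conditions over
`ℚ`: at the primes that divide `2 Δ` as they split; at the primes `l` that divide `m` it is unramified
over `ℚ_l`, since `E` has no points of order two modulo `l` (`a_l` is odd) and the ramification group of
`K` at `l` is a 2-group; at the other primes as `K` is unramified there.  So it gives a class in
`Sel_2(E/ℚ) = 0`.  Analytic side: `L(E/K, s)` is the product of the twists `L(E, χ, s)` over the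
characters of `K`, which are entire, and `τ(χ) L(E, χ⁻¹, 1)` is a period times an algebraic number;
modulo the primes above 2 these numbers for all `χ` of 2-power order are congruent to a sum of modular
symbols that does not depend on `χ`, except for the parity of `χ`, and is `∏ (a_l - 2)` times the number
for `χ = 1` up to a unit (for odd `χ` as the lattice of `E` is not rectangular for `Δ < 0`).  So they
are units.
-/

set_option autoImplicit false

open NumberField NumberField.InfinitePlace IsDedekindDomain WeierstrassCurve MeasureTheory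
open UpperHalfPlane MatrixGroups CongruenceSubgroup

namespace Pool.Agent.Results.MP_9ab903_nt.TwoPartLifting

open scoped Classical

open Pool.Agent.TH841.NF.D (Sha)

/-- The curve given by the equation of `W` over the ring `R`. -/
abbrev base (W : WeierstrassCurve ℤ) (R : Type) [CommRing R] : WeierstrassCurve R :=
  W.map (Int.castRingHom R)

/-- The number of the affine points `(x, y)` over the ring `R`. -/
noncomputable def pts (W : WeierstrassCurve ℤ) (R : Type) [CommRing R] : ℕ :=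
  Nat.card {P : R × R // (base W R).toAffine.Equation P.1 P.2}

section

variable {K : Type} [Field K] [NumberField K]

/-- `a_v = N v + 1 - #W(k_v)`, the points over the residue field `k_v` counted with the point at
infinity. -/
noncomputable def a (W : WeierstrassCurve ℤ) (v : HeightOneSpectrum (𝓞 K)) : ℤ :=
  (Ideal.absNorm v.asIdeal : ℤ) - pts W (𝓞 K ⧸ v.asIdeal)

/-- The Euler factor of `L(W/K, s)` at `v` : `(1 - a_v N v^(-s) + N v^(1 - 2 s))⁻¹` if the
discriminant is a unit at `v`, and `(1 - a_v N v^(-s))⁻¹` otherwise. -/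
noncomputable def factor (W : WeierstrassCurve ℤ) (s : ℂ) (v : HeightOneSpectrum (𝓞 K)) : ℂ :=
  (1 - (a W v : ℂ) * (Ideal.absNorm v.asIdeal : ℂ) ^ (-s) +
    if ((W.Δ : ℤ) : 𝓞 K) ∈ v.asIdeal then 0 else (Ideal.absNorm v.asIdeal : ℂ) ^ (1 - 2 * s))⁻¹

/-- The equation is minimal at the finite place `v` of `K`: no change of variables over `K` that
keeps the coefficients integral at `v` decreases the valuation of the discriminant. -/
def MinimalAt (W : WeierstrassCurve ℤ) (v : HeightOneSpectrum (𝓞 K)) : Prop :=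
  ∀ C : VariableChange K, v.valuation K (C • base W K).a₁ ≤ 1 →
    v.valuation K (C • base W K).a₂ ≤ 1 → v.valuation K (C • base W K).a₃ ≤ 1 →
    v.valuation K (C • base W K).a₄ ≤ 1 → v.valuation K (C • base W K).a₆ ≤ 1 →
    v.valuation K (C • base W K).Δ ≤ v.valuation K (base W K).Δ

/-- `E⁰(K_v)`, the group of the points of `W` over the completion `K_v` with nonsingular reduction:
the points `(x, y)` where `x` is not integral, or one of the partial derivatives of
`y² + a₁ x y + a₃ y - x³ - a₂ x² - a₄ x - a₆` is a unit at `(x, y)`, and the point at infinity. -/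
noncomputable def nonsing (W : WeierstrassCurve ℤ) (v : HeightOneSpectrum (𝓞 K)) :
    AddSubgroup (base W (v.adicCompletion K)).toAffine.Point :=
  AddSubgroup.closure {P | ∀ x y h, P = Affine.Point.some x y h →
    1 < Valued.v x ∨ Valued.v (W.a₁ * y - (3 * x ^ 2 + 2 * W.a₂ * x + W.a₄)) = 1 ∨
      Valued.v (2 * y + W.a₁ * x + W.a₃) = 1}

/-- The Tamagawa number `c_v = [E(K_v) : E⁰(K_v)]` of a minimal equation. -/
noncomputable def c (W : WeierstrassCurve ℤ) (v : HeightOneSpectrum (𝓞 K)) : ℕ :=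
  (nonsing W v).index

end

section

variable (K : Type) [Field K] [NumberField K]

/-- The product of the Tamagawa numbers. -/
noncomputable def Tam (W : WeierstrassCurve ℤ) : ℕ := ∏ᶠ v : HeightOneSpectrum (𝓞 K), c W v

/-- The 2-primary part of the Tate-Shafarevich group over `K`. -/
def Sha2 (W : WeierstrassCurve ℤ) : Set (Sha (base W K)) := {x | ∃ n : ℕ, 2 ^ n • x = 0}

/-- The torsion subgroup of the group of the points over `K`. -/
def tors (W : WeierstrassCurve ℤ) : Set (base W K).toAffine.Point := {P | ∃ n : ℕ, 0 < n ∧ n • P = 0}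

/-- The rank of the group of the points over `K`. -/
noncomputable def rank (W : WeierstrassCurve ℤ) : ℕ := Module.finrank ℤ (base W K).toAffine.Point

end

/-- `4 x³ + b₂ x² + 2 b₄ x + b₆ = (2 y + a₁ x + a₃)²`, where `b₂ = a₁² + 4 a₂`,
`b₄ = 2 a₄ + a₁ a₃`, `b₆ = a₃² + 4 a₆`. -/
def cubic (W : WeierstrassCurve ℤ) {R : Type} [CommRing R] (x : R) : R :=
  4 * x ^ 3 + W.b₂ * x ^ 2 + 2 * W.b₄ * x + W.b₆

/-- `∫_{W(ℝ)} |ω|` with `ω = dx / (2 y + a₁ x + a₃)`, as an integral over `x`: two real points lie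
over each `x` with `cubic x > 0`. -/
noncomputable def realPeriod (W : WeierstrassCurve ℤ) : ℝ :=
  2 * ∫ x in {x : ℝ | 0 < cubic W x}, 1 / √(cubic W x)

/-- `2 ∫_{W(ℂ)} |ω ∧ ω̄|`, where `|ω ∧ ω̄| = du dv` in a local parameter `z = u + i v` with
`dz = ω`, as an integral over `x`: two points lie over a general `x`, and `|ω ∧ ω̄|` is the area
element of the plane of `x` divided by `|cubic x|`. -/
noncomputable def complexPeriod (W : WeierstrassCurve ℤ) : ℝ := 2 * (2 * ∫ x : ℂ, 1 / ‖cubic W x‖)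

/-- The global period of an equation that is minimal at all finite places. -/
noncomputable def Omega (K : Type) [Field K] [NumberField K] (W : WeierstrassCurve ℤ) : ℝ :=
  realPeriod W ^ nrRealPlaces K * complexPeriod W ^ nrComplexPlaces K

/-- **The 2-part of the Birch and Swinnerton-Dyer conjecture** for `W` over `K`, the equation being
minimal and the rank being zero: almost all Tamagawa numbers are one; the `L`-function is entire; its
order at `s = 1` is the rank; the 2-primary part of the Tate-Shafarevich group is finite; and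
`L(1) √|Δ_K| / Ω` is a rational number with the same 2-adic valuation as
`#Ш[2^∞] Tam / #tors²`. -/
structure BSDTwo (K : Type) [Field K] [NumberField K] (W : WeierstrassCurve ℤ) : Prop where
  minimal : ∀ v : HeightOneSpectrum (𝓞 K), MinimalAt W v
  tam : {v : HeightOneSpectrum (𝓞 K) | c W v ≠ 1}.Finite
  rank : rank K W = 0
  points : Finite (base W K).toAffine.Point
  sha : (Sha2 K W).Finite
  formula : ∃ L : ℂ → ℂ, Differentiable ℂ L ∧
    (∀ s : ℂ, 3 / 2 < s.re → HasProd (factor (K := K) W s) (L s)) ∧ analyticOrderAt L 1 = 0 ∧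
    ∃ r : ℚ, L 1 * √|(discr K : ℝ)| = r * Omega K W ∧ r ≠ 0 ∧
      padicValRat 2 r = padicValRat 2
        ((Nat.card (Sha2 K W) * Tam K W : ℚ) / (Nat.card (tors K W) : ℚ) ^ 2)

/-- The algebraic terms of the formula are odd. -/
structure AllOdd (K : Type) [Field K] [NumberField K] (W : WeierstrassCurve ℤ) : Prop where
  sha : Sha2 K W = {0}
  tam : Odd (Tam K W)
  tors : Odd (Nat.card (tors K W))

section modular

variable {N : ℕ}

/-- The `n`-th coefficient of the cusp form `f = ∑ a_n q^n`. -/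
noncomputable def co (f : CuspForm (Gamma0 N : Subgroup (GL (Fin 2) ℝ)) 2) (n : ℕ) : ℂ :=
  (qExpansion 1 f).coeff n

/-- `2 π i ∫_(i∞)^z f(w) dw = ∑ a_n / n e^(2 π i n z)`. -/
noncomputable def prim (f : CuspForm (Gamma0 N : Subgroup (GL (Fin 2) ℝ)) 2) (z : ℂ) : ℂ :=
  ∑' n : ℕ, co f n / n * Complex.exp (2 * Real.pi * Complex.I * n * z)

/-- The cusp form `f` of weight two for `Γ₀(N)` is the newform of `W`: it is a normalised eigenform
of the Hecke operators and of the Fricke involution, with real coefficients that satisfy the bounds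
of Hasse, `N` has the same prime divisors as the discriminant, and `a_p = p + 1 - #W(𝔽_p)`. -/
structure IsNewform (W : WeierstrassCurve ℤ) (N : ℕ)
    (f : CuspForm (Gamma0 N : Subgroup (GL (Fin 2) ℝ)) 2) : Prop where
  one : co f 1 = 1
  real : ∀ n, (co f n).im = 0
  mul : ∀ m n : ℕ, Nat.Coprime m n → co f (m * n) = co f m * co f n
  pow : ∀ p j : ℕ, p.Prime → co f (p ^ (j + 2)) = co f p * co f (p ^ (j + 1)) -
      (if p ∣ N then 0 else (p : ℂ) * co f (p ^ j))
  good : ∀ p : ℕ, p.Prime → ¬ p ∣ N → ‖co f p‖ ≤ 2 * Real.sqrt p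
  bad : ∀ p : ℕ, p.Prime → p ∣ N → ‖co f p‖ ≤ 1
  fricke : ∃ w : ℝ, (w = 1 ∨ w = -1) ∧ ∀ τ τ' : ℍ, (τ' : ℂ) * ((N : ℂ) * (τ : ℂ)) = -1 →
    f τ' = -(w : ℂ) * (N : ℂ) * (τ : ℂ) ^ 2 * f τ
  level : ∀ p : ℕ, p.Prime → (p ∣ N ↔ (p : ℤ) ∣ W.Δ)
  coef : ∀ p : ℕ, p.Prime → co f p = (p : ℂ) - (pts W (ZMod p) : ℂ)

end modular

section proof

open Pool.Agent.Y702

variable {N : ℕ} [NeZero N]

lemma isForm {W : WeierstrassCurve ℤ} {f : CuspForm (Gamma0 N : Subgroup (GL (Fin 2) ℝ)) 2}
    (h : IsNewform W N f) : G.IsForm W N f :=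
  ⟨h.one, h.real, h.mul, h.pow, h.good, h.bad, h.fricke, h.level, h.coef⟩

lemma factor_eq {K : Type} [Field K] [NumberField K] (W : WeierstrassCurve ℤ) (s : ℂ) :
    factor (K := K) W s = G.factor (K := K) W s := rfl

lemma min_eq {K : Type} [Field K] [NumberField K] (W : WeierstrassCurve ℤ)
    (v : HeightOneSpectrum (𝓞 K)) : MinimalAt W v ↔ G.MinimalAt W v := Iff.rfl

lemma c_eq {K : Type} [Field K] [NumberField K] (W : WeierstrassCurve ℤ)
    (v : HeightOneSpectrum (𝓞 K)) : c W v = (G.E0 W (v.adicCompletion K) Valued.v).index := rfl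

lemma cubic_eq (W : WeierstrassCurve ℤ) {R : Type} [CommRing R] (x : R) :
    cubic W x = G.cubic W x := rfl

/-- the value of the `L`-function over `ℚ` is the value of the integral of `f` -/
theorem bv_zero (hE : G.S_EPQ) {W : WeierstrassCurve ℤ}
    {f : CuspForm (Gamma0 N : Subgroup (GL (Fin 2) ℝ)) 2} (hf : G.IsForm W N f) (L : ℂ → ℂ)
    (hL : Differentiable ℂ L)
    (hp : ∀ s : ℂ, 3 / 2 < s.re → HasProd (factor (K := ℚ) W s) (L s)) :
    Pool.Agent.Y18.BSD.bv f 0 = L 1 := by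
  obtain ⟨H, h1, h2, h3⟩ := G.twist hf 1 (Nat.coprime_one_left N) (1 : DirichletCharacter ℂ 1)
    (DirichletCharacter.isPrimitive_one_level_one)
  have e : L = H := by
    have hLa : AnalyticOnNhd ℂ L Set.univ := fun z _ => hL.analyticAt z
    have hHa : AnalyticOnNhd ℂ H Set.univ := fun z _ => h1.analyticAt z
    refine hLa.eq_of_eventuallyEq hHa (z₀ := 2) ?_
    have hopen : IsOpen {s : ℂ | 3 / 2 < s.re} := isOpen_lt continuous_const Complex.continuous_re
    filter_upwards [hopen.mem_nhds (show (2 : ℂ) ∈ {s : ℂ | 3 / 2 < s.re} by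
      simp only [Set.mem_ofPred_eq]; norm_num)] with s hs
    have h4 := hE W N f hf s (L s) (hp s hs)
    have h5 := h2 s hs
    refine h4.unique (h5.congr_fun fun p => ?_)
    have hz : ((p : ℕ) : ZMod 1) = 1 := Subsingleton.elim _ _
    rw [hz, map_one, mul_one, one_pow, mul_one]
  rw [e]
  have hd : ((default : (ZMod 1)ˣ)) = 1 := Subsingleton.elim _ _
  have hv : (((1 : (ZMod 1)ˣ) : ZMod 1).val : ℚ) / ((1 : ℕ) : ℚ) = 0 := by
    have : (((1 : (ZMod 1)ˣ) : ZMod 1)).val = 0 := by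
      have := ZMod.val_lt ((1 : (ZMod 1)ˣ) : ZMod 1)
      omega
    rw [this]; simp
  rw [Fintype.sum_unique, hd, hv, Units.val_one, map_one, one_mul] at h3
  have hg : gaussSum (1 : DirichletCharacter ℂ 1)⁻¹ (ZMod.stdAddChar (N := 1)) = 1 := by
    unfold gaussSum
    have h6 : ∀ x : ZMod 1, (1 : DirichletCharacter ℂ 1)⁻¹ x * ZMod.stdAddChar (N := 1) x = 1 := by
      intro x
      have e1 : (1 : DirichletCharacter ℂ 1)⁻¹ x = 1 := by
        rw [Subsingleton.elim x 1, map_one]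
      have e2 : ZMod.stdAddChar (N := 1) x = 1 := by
        rw [Subsingleton.elim x 0, AddChar.map_zero_eq_one]
      rw [e1, e2, one_mul]
    rw [Finset.sum_congr rfl fun x _ => h6 x]
    simp
  rw [hg, one_mul] at h3
  exact h3.symm

lemma odd_of_val (r : ℚ) (h0 : r ≠ 0) (h : padicValRat 2 r = 0) : Odd r.num ∧ Odd (r.den : ℤ) := by
  have : Fact (Nat.Prime 2) := ⟨Nat.prime_two⟩
  have h1 : padicValRat 2 r = padicValInt 2 r.num - padicValNat 2 r.den := rfl
  rw [h1] at h
  have hnum : r.num ≠ 0 := Rat.num_ne_zero.2 h0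
  have hcop : Nat.Coprime r.num.natAbs r.den := r.reduced
  by_cases h2 : 2 ∣ r.den
  · exfalso
    have h3 : ¬ 2 ∣ r.num.natAbs := by
      intro h4
      have := Nat.dvd_gcd h4 h2
      rw [hcop] at this
      norm_num at this
    have h4 : padicValInt 2 r.num = 0 := by
      unfold padicValInt
      exact padicValNat.eq_zero_of_not_dvd h3
    have h5 : 0 < padicValNat 2 r.den := by
      have := one_le_padicValNat_of_dvd r.den_nz h2
      omega
    rw [h4] at h
    omega
  · have h4 : padicValNat 2 r.den = 0 := padicValNat.eq_zero_of_not_dvd h2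
    rw [h4] at h
    have h5 : ¬ 2 ∣ r.num.natAbs := by
      intro h6
      have h7 : 0 < padicValNat 2 r.num.natAbs := by
        have := one_le_padicValNat_of_dvd (Int.natAbs_ne_zero.2 hnum) h6
        omega
      unfold padicValInt at h
      omega
    refine ⟨?_, ?_⟩
    · rw [← Int.not_even_iff_odd, even_iff_two_dvd]
      intro h6
      exact h5 (Int.natCast_dvd.1 h6)
    · rw [← Int.not_even_iff_odd, even_iff_two_dvd]
      intro h6
      exact h2 (by exact_mod_cast h6)

lemma val_zero (D M : ℤ) (hD : Odd D) (hM : Odd M) (ε : ℚ) (hε : ε = 1 ∨ ε = -1) :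
    padicValRat 2 (ε * (|(M : ℚ)| / |(D : ℚ)|)) = 0 := by
  have : Fact (Nat.Prime 2) := ⟨Nat.prime_two⟩
  have ne : ∀ N : ℤ, Odd N → (N : ℚ) ≠ 0 := by
    intro N hN h
    have : N = 0 := by exact_mod_cast h
    rw [this] at hN
    exact absurd hN (by decide)
  have h1 : ∀ N : ℤ, Odd N → padicValRat 2 |(N : ℚ)| = 0 := by
    intro N hN
    have e : |(N : ℚ)| = ((N.natAbs : ℕ) : ℚ) := by
      rw [Nat.cast_natAbs, Int.cast_abs]
    rw [e, padicValRat.of_nat]
    have : ¬ 2 ∣ N.natAbs := by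
      intro h
      exact (Int.not_even_iff_odd.2 hN) (even_iff_two_dvd.2 (Int.natCast_dvd.2 h))
    rw [padicValNat.eq_zero_of_not_dvd this]
    rfl
  have h2 : padicValRat 2 (|(M : ℚ)| / |(D : ℚ)|) = 0 := by
    rw [padicValRat.div (abs_ne_zero.2 (ne M hM)) (abs_ne_zero.2 (ne D hD)), h1 M hM, h1 D hD,
      sub_zero]
  rcases hε with rfl | rfl
  · rw [one_mul]; exact h2
  · rw [neg_one_mul, padicValRat.neg]; exact h2

section alg

variable {K : Type} [Field K] [NumberField K] {W : WeierstrassCurve ℤ}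

lemma tors_eq (h : Finite (base W K).toAffine.Point) : tors K W = Set.univ := by
  ext P
  simp only [Set.mem_univ, iff_true]
  exact ⟨Nat.card (base W K).toAffine.Point, Nat.card_pos,
    card_nsmul_eq_zero' (G := (base W K).toAffine.Point) (x := P)⟩

lemma rank_eq (h : Finite (base W K).toAffine.Point) : rank K W = 0 := by
  unfold rank
  apply Module.IsTorsion.finrank_eq_zero
  intro P
  refine ⟨⟨(Nat.card (base W K).toAffine.Point : ℤ), ?_⟩, ?_⟩
  · rw [mem_nonZeroDivisors_iff_ne_zero]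
    exact_mod_cast Nat.card_pos.ne'
  · show (Nat.card (base W K).toAffine.Point : ℤ) • P = 0
    rw [natCast_zsmul]
    exact card_nsmul_eq_zero'

lemma sha_eq (h : ∀ s : Sha (base W K), 2 • s = 0 → s = 0) : Sha2 K W = {0} := by
  have key : ∀ (j : ℕ) (x : Sha (base W K)), 2 ^ j • x = 0 → x = 0 := by
    intro j
    induction j with
    | zero => intro x hx; rw [pow_zero, one_nsmul] at hx; exact hx
    | succ j ih =>
      intro x hx
      rw [pow_succ, mul_nsmul] at hx
      exact ih x (h _ hx)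
  ext x
  constructor
  · rintro ⟨k, hk⟩
    exact key k x hk
  · rintro rfl
    exact ⟨0, nsmul_zero _⟩

lemma allOdd_sha2 (h : AllOdd K W) (s : Sha (base W K)) (hs : 2 • s = 0) : s = 0 := by
  have h1 : s ∈ Sha2 K W := ⟨1, by rw [pow_one]; exact hs⟩
  rw [h.sha] at h1
  exact h1

lemma allOdd_val (h : AllOdd K W) : padicValRat 2
    ((Nat.card (Sha2 K W) * Tam K W : ℚ) / (Nat.card (tors K W) : ℚ) ^ 2) = 0 := by
  rw [h.sha, Nat.card_unique, Nat.cast_one, one_mul]
  have : Fact (Nat.Prime 2) := ⟨Nat.prime_two⟩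
  rw [padicValRat.div (Nat.cast_ne_zero.2 h.tam.pos.ne')
    (pow_ne_zero _ (Nat.cast_ne_zero.2 h.tors.pos.ne')), padicValRat.pow, padicValRat.of_nat,
    padicValRat.of_nat, padicValNat.eq_zero_of_not_dvd h.tam.not_two_dvd_nat,
    padicValNat.eq_zero_of_not_dvd h.tors.not_two_dvd_nat]
  simp

lemma c_odd (hfin : {v : HeightOneSpectrum (𝓞 K) | c W v ≠ 1}.Finite) (h : Odd (Tam K W))
    (v : HeightOneSpectrum (𝓞 K)) : Odd (c W v) := by
  by_cases hv : c W v = 1
  · rw [hv]; exact odd_one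
  · refine h.of_dvd_nat ?_
    unfold Tam
    rw [finprod_eq_prod_of_mulSupport_subset (s := hfin.toFinset) (fun v => c W v) (by
      intro w hw
      simpa using hw)]
    exact Finset.dvd_prod_of_mem _ (by simpa using hv)

end alg

section core

variable {N : ℕ} [NeZero N]

theorem core (hI : G.S_INV) (hK : G.S_KUMP) (hS : G.S_SPL) (hP : G.S_PAR) (hC : G.S_CONV)
    (hLZ : G.S_LZ) (hD : G.S_DESCQ) (hDe : G.S_DESC) (hTG : G.S_TAMG) (hTS : G.S_TAMS)
    (hMS : G.S_MINS) (hPR : G.S_PERR) (hPC : G.S_PERC) (hHP : G.S_HASP) (hE : G.S_EPQ)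
    (hLat : G.S_LAT) (W : WeierstrassCurve ℤ) (hΔ : W.Δ < 0)
    (f : CuspForm (Gamma0 N : Subgroup (GL (Fin 2) ℝ)) 2) (hf : IsNewform W N f)
    (Λ : PeriodPair) (hg₂ : Λ.g₂ = (W.c₄ : ℂ) / 12) (hg₃ : Λ.g₃ = (W.c₆ : ℂ) / 216)
    (hman : ∃ c : ℤ, Odd c ∧ ∀ γ ∈ Gamma0 N, ∀ z : ℍ,
      (c : ℂ) * (prim f ((γ • z : ℍ) : ℂ) - prim f (z : ℂ)) ∈ Λ.lattice)
    (hB : BSDTwo ℚ W) (hO : AllOdd ℚ W)
    (m : ℕ) [NeZero m] (hsq : Squarefree m)
    (hm : ∀ l : ℕ, l.Prime → l ∣ m → ¬ (l : ℤ) ∣ 2 * W.Δ ∧ Odd ((l : ℤ) - pts W (ZMod l)))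
    (M : Type) [Field M] [NumberField M] [IsCyclotomicExtension {m} ℚ M]
    (K : IntermediateField ℚ M) (n : ℕ) (hn : Module.finrank ℚ K = 2 ^ n)
    (hsplit : ∀ v : HeightOneSpectrum (𝓞 K), ((2 * W.Δ : ℤ) : 𝓞 K) ∈ v.asIdeal →
      (Ideal.absNorm v.asIdeal).Prime) :
    BSDTwo K W ∧ AllOdd K W := by
  have hgal : IsGalois ℚ K := Pool.Agent.Y702.L.gal_F m M K
  have hfI := isForm hf
  have hunr : ∀ (p : ℕ), p.Prime → ¬ p ∣ m → ∀ v : HeightOneSpectrum (𝓞 K), (p : 𝓞 K) ∈ v.asIdeal →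
      v.valuation K (p : K) = WithZero.exp (-1 : ℤ) :=
    fun p hp hpm v hv => Pool.Agent.Y702.Fn.unr m M K hp hpm v hv
  -- the algebraic side over `ℚ`
  have hfinQ : Finite (base W ℚ).toAffine.Point := hB.points
  have hcardQ : Odd (Nat.card (base W ℚ).toAffine.Point) := by
    have h := hO.tors
    rw [tors_eq hfinQ, Nat.card_univ] at h
    exact h
  have hshaQ : ∀ s : Sha (base W ℚ), 2 • s = 0 → s = 0 := fun s hs => allOdd_sha2 hO s hs
  have hnr := G.no_root_of_odd W hΔ.ne hfinQ hcardQ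
  have hsel := G.sel_main2 hI hK hS hP hC hLZ hD W hΔ hnr hshaQ hfinQ hcardQ K n m hn hm hunr hsplit
  obtain ⟨hsha, hfin, hcard⟩ := hDe W hΔ.ne K hsel (G.no_root _ hnr K n hn)
  have hfin' : Finite (base W K).toAffine.Point := hfin
  have hcard' : Odd (Nat.card (base W K).toAffine.Point) := hcard
  have htors : tors K W = Set.univ := tors_eq hfin'
  have hSha : Sha2 K W = {0} := sha_eq hsha
  -- the places
  have hbelow : ∀ v : HeightOneSpectrum (𝓞 K), ((W.Δ : ℤ) : 𝓞 K) ∈ v.asIdeal →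
      (∀ x : ℚ, v.valuation K (algebraMap ℚ K x) = (v.under (𝓞 ℚ)).valuation ℚ x) ∧
      (Ideal.absNorm v.asIdeal).Prime := by
    intro v hv
    have h2 : ((2 * W.Δ : ℤ) : 𝓞 K) ∈ v.asIdeal := by
      push_cast
      exact Ideal.mul_mem_left _ _ hv
    refine ⟨?_, hsplit v h2⟩
    set q := Pool.Agent.H921R2.TatePole.below v with hq
    have h5 : ((q : ℕ) : ℤ) ∣ 2 * W.Δ := by
      have h6 : (((2 * W.Δ).natAbs : ℕ) : 𝓞 K) ∈ v.asIdeal := by
        rcases Int.natAbs_eq (2 * W.Δ) with h8 | h8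
        · rw [h8] at h2
          rw [Int.cast_natCast] at h2
          exact h2
        · rw [h8, Int.cast_neg, neg_mem_iff, Int.cast_natCast] at h2
          exact h2
      rw [Pool.Agent.H82R3.EK.natCast_mem_iff] at h6
      exact Int.natCast_dvd.2 h6
    have hqm : ¬ (q : ℕ) ∣ m := fun h => (hm _ q.2 h).1 h5
    exact G.val_eq v _ rfl q (hunr _ q.2 hqm v ((Pool.Agent.H82R3.EK.natCast_mem_iff v _).2 dvd_rfl))
  have hunit : ∀ v : HeightOneSpectrum (𝓞 K), ((W.Δ : ℤ) : 𝓞 K) ∉ v.asIdeal →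
      v.valuation K (W.Δ : K) = 1 := by
    intro v hv
    have e : algebraMap (𝓞 K) K ((W.Δ : ℤ) : 𝓞 K) = (W.Δ : K) := map_intCast _ _
    have h1 : v.valuation K (W.Δ : K) ≤ 1 := Fn.int_le_one v _
    rcases h1.lt_or_eq with h2 | h2
    · exfalso
      apply hv
      have h3 := v.valuation_lt_one_iff_mem (K := K) ((W.Δ : ℤ) : 𝓞 K)
      have h4 : v.valuation K (algebraMap (𝓞 K) K ((W.Δ : ℤ) : 𝓞 K)) < 1 := by
        rw [e]; exact h2
      exact h3.1 h4
    · exact h2
  have hc1 : ∀ v : HeightOneSpectrum (𝓞 K), ((W.Δ : ℤ) : 𝓞 K) ∉ v.asIdeal → c W v = 1 := by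
    intro v hv
    have hint : ∀ n : ℤ, Valued.v ((n : ℤ) : v.adicCompletion K) ≤ 1 := fun n => by
      rw [Fn.valued_int]
      exact Fn.int_le_one v n
    rw [c_eq, hTG W (v.adicCompletion K) Valued.v hint (by
      rw [Fn.valued_int]
      exact hunit v hv), AddSubgroup.index_top]
  have hcodd : ∀ v : HeightOneSpectrum (𝓞 K), Odd (c W v) := by
    intro v
    by_cases hv : ((W.Δ : ℤ) : 𝓞 K) ∈ v.asIdeal
    · obtain ⟨h1, h2⟩ := hbelow v hv
      rw [c_eq, hTS W K v _ h1 h2, ← c_eq]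
      exact c_odd hB.tam hO.tam _
    · rw [hc1 v hv]
      exact odd_one
  have hTam : Odd (Tam K W) :=
    finprod_induction (fun x => Odd x) odd_one (fun _ _ => Odd.mul) hcodd
  have hAO : AllOdd K W := ⟨hSha, hTam, by rw [htors, Nat.card_univ]; exact hcard'⟩
  refine ⟨?_, hAO⟩
  -- the lattice
  obtain ⟨Op, Om, hOp, hOm, hlat⟩ := hLat Λ ((W.c₄ : ℝ) / 12) ((W.c₆ : ℝ) / 216)
    (by rw [hg₂]; push_cast; rfl) (by rw [hg₃]; push_cast; rfl) (by
      have h1 : (1728 : ℝ) * W.Δ = (W.c₄ : ℝ) ^ 3 - (W.c₆ : ℝ) ^ 2 := by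
        exact_mod_cast congrArg (fun x : ℤ => (x : ℝ)) W.c_relation
      have h2 : (W.Δ : ℝ) < 0 := by exact_mod_cast hΔ
      have h3 : ((W.c₄ : ℝ) / 12) ^ 3 - 27 * ((W.c₆ : ℝ) / 216) ^ 2 = (W.Δ : ℝ) := by
        linear_combination (-1 / 1728 : ℝ) * h1
      rw [h3]
      exact h2)
  have hreal : realPeriod W = 2 * Op := by
    unfold realPeriod
    simp_rw [cubic_eq]
    rw [hPR W hΔ Λ Op Om hOp hOm hg₂ hg₃ hlat]
  have hcomp : complexPeriod W = 4 * Op * Om := by
    unfold complexPeriod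
    simp_rw [cubic_eq]
    rw [hPC W hΔ Λ Op Om hOp hOm hg₂ hg₃ hlat]
    ring
  -- the value over `ℚ`
  obtain ⟨L₀, hL1, hL2, hL3, r₀, hr1, hr2, hr3⟩ := hB.formula
  rw [allOdd_val hO] at hr3
  obtain ⟨hnum, hden⟩ := odd_of_val r₀ hr2 hr3
  have hbv := bv_zero hE hfI L₀ hL1 hL2
  have hOQ : Omega ℚ W = 2 * Op := by
    unfold Omega
    rw [hreal, nrRealPlaces_eq_one_of_finrank_eq_one (Module.finrank_self ℚ),
      nrComplexPlaces_eq_zero_of_finrank_eq_one (Module.finrank_self ℚ), pow_one, pow_zero, mul_one]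
  have hval0 : ((r₀.den : ℤ) : ℂ) * Pool.Agent.Y18.BSD.bv f 0 = (r₀.num : ℂ) * (2 * Op) := by
    rw [hOQ] at hr1
    have h1 : L₀ 1 = r₀ * (2 * Op) := by
      have h2 := hr1
      simp only [Rat.numberField_discr] at h2
      simpa using h2
    rw [hbv, h1]
    have h2 : ((r₀.den : ℤ) : ℂ) * (r₀ : ℂ) = (r₀.num : ℂ) := by
      have h3 : ((r₀.den : ℤ) : ℚ) * r₀ = (r₀.num : ℚ) := by
        rw [Int.cast_natCast]
        exact Rat.den_mul_eq_num r₀
      exact_mod_cast congrArg (fun x : ℚ => (x : ℂ)) h3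
    linear_combination (2 * Op : ℂ) * h2
  obtain ⟨cc, hcc, hman'⟩ := hman
  have hPer : G.Per f Op Om (Λ.lattice : Set ℂ) cc r₀.num (r₀.den : ℤ) := by
    refine ⟨hOp, hOm, hlat, hcc, ?_, hnum, hden, hval0⟩
    rintro x ⟨γ, rfl⟩
    have h1 := Pool.Agent.Y18.BSD.per_spec f (Additive.toMul γ) UpperHalfPlane.I
    have h2 := hman' _ (Additive.toMul γ).2 UpperHalfPlane.I
    have h3 : prim f ((((Additive.toMul γ : Gamma0 N) : SL(2, ℤ)) • UpperHalfPlane.I : ℍ) : ℂ) -
        prim f (UpperHalfPlane.I : ℂ) = Pool.Agent.Y18.BSD.per f (Additive.toMul γ) := by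
      have h4 : prim f ((((Additive.toMul γ : Gamma0 N) : SL(2, ℤ)) • UpperHalfPlane.I : ℍ) : ℂ) =
          prim f (UpperHalfPlane.I : ℂ) + Pool.Agent.Y18.BSD.per f (Additive.toMul γ) := h1
      rw [h4]
      ring
    rw [h3] at h2
    exact h2
  have hmodd : Odd m := by
    rw [← Nat.not_even_iff_odd, even_iff_two_dvd]
    intro h
    exact (hm 2 Nat.prime_two h).1 (Dvd.intro _ rfl)
  have hcoN : Nat.Coprime m N := by
    rw [Nat.coprime_iff_gcd_eq_one]
    by_contra h
    obtain ⟨l, hl, hl2⟩ := Nat.exists_prime_and_dvd h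
    have h3 := (hfI.level l hl).1 (hl2.trans (Nat.gcd_dvd_right _ _))
    exact (hm l hl (hl2.trans (Nat.gcd_dvd_left _ _))).1 (Dvd.dvd.mul_left h3 2)
  obtain ⟨H, hHd, hHp, him, D, M', hDo, hMo, hval⟩ := G.l_main hHP hΔ.ne hfI hPer m hsq hmodd hcoN
    (fun l hl hlm => (hm l hl hlm).2) M K n hn hsplit
  have hOmega : Omega K W = (2 * Op) ^ nrRealPlaces K * (4 * Op * Om) ^ nrComplexPlaces K := by
    unfold Omega
    rw [hreal, hcomp]
  have hOmega0 : 0 < Omega K W := by
    rw [hOmega]; positivity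
  have ne : ∀ N : ℤ, Odd N → (N : ℝ) ≠ 0 := by
    intro N hN h
    have : N = 0 := by exact_mod_cast h
    rw [this] at hN
    exact absurd hN (by decide)
  have hD0 : 0 < |(D : ℝ)| := abs_pos.2 (ne D hDo)
  have hM0 : 0 < |(M' : ℝ)| := abs_pos.2 (ne M' hMo)
  have hval' : ‖H 1‖ * √|(discr K : ℝ)| = |(M' : ℝ)| / |(D : ℝ)| * Omega K W := by
    rw [← hOmega] at hval
    rw [div_mul_eq_mul_div, eq_div_iff hD0.ne', ← hval]
    ring
  have hH1 : H 1 ≠ 0 := by
    intro h
    rw [h, norm_zero, zero_mul] at hval'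
    have : 0 < |(M' : ℝ)| / |(D : ℝ)| * Omega K W := mul_pos (div_pos hM0 hD0) hOmega0
    exact this.ne hval'
  have hre : H 1 = ((H 1).re : ℂ) := Complex.ext rfl (by rw [him]; rfl)
  have hnorm : ‖H 1‖ = |(H 1).re| := by
    rw [hre, Complex.norm_real, Real.norm_eq_abs, Complex.ofReal_re]
  refine ⟨fun v => ?_, ?_, rank_eq hfin', hfin', by rw [hSha]; exact Set.finite_singleton 0,
    H, hHd, hHp, analyticOrderAt_eq_zero.2 (Or.inr hH1), ?_⟩
  · by_cases hv : ((W.Δ : ℤ) : 𝓞 K) ∈ v.asIdeal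
    · obtain ⟨h1, h2⟩ := hbelow v hv
      exact hMS W K v _ h1 h2 (hB.minimal _)
    · intro C h1 h2 h3 h4 h6
      have e : (base W K).Δ = (W.Δ : K) := by
        rw [WeierstrassCurve.map_Δ]
        simp
      rw [e, hunit v hv]
      exact Fn.disc_le v _ h1 h2 h3 h4 h6
  · refine (W165.CE.finite_bad (K := K) W.Δ hΔ.ne).subset ?_
    intro v hv
    by_contra hcon
    apply hv
    apply hc1 v
    intro h
    apply hcon
    have h6 : ((W.Δ.natAbs : ℕ) : 𝓞 K) ∈ v.asIdeal := by
      rcases Int.natAbs_eq W.Δ with h8 | h8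
      · rw [h8] at h
        rw [Int.cast_natCast] at h
        exact h
      · rw [h8, Int.cast_neg, neg_mem_iff, Int.cast_natCast] at h
        exact h
    rw [Pool.Agent.H82R3.EK.natCast_mem_iff] at h6
    exact Int.natCast_dvd.2 h6
  · obtain ⟨ε, hε, hεr⟩ : ∃ ε : ℚ, (ε = 1 ∨ ε = -1) ∧ (H 1).re = ε * |(H 1).re| := by
      rcases le_total 0 (H 1).re with h | h
      · exact ⟨1, Or.inl rfl, by rw [abs_of_nonneg h]; push_cast; ring⟩
      · exact ⟨-1, Or.inr rfl, by rw [abs_of_nonpos h]; push_cast; ring⟩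
    refine ⟨ε * (|(M' : ℚ)| / |(D : ℚ)|), ?_, ?_, ?_⟩
    · rw [hnorm] at hval'
      rw [hre, hεr]
      have h2 : ((|(H 1).re| : ℝ) : ℂ) * (√|(discr K : ℝ)| : ℝ) =
          ((|(M' : ℝ)| / |(D : ℝ)| * Omega K W : ℝ) : ℂ) := by
        rw [← Complex.ofReal_mul, hval']
      have h3 : ∀ x : ℤ, (((|(x : ℚ)| : ℚ) : ℂ)) = ((|(x : ℝ)| : ℝ) : ℂ) := by
        intro x
        rw [← Complex.ofReal_ratCast]
        push_cast
        rfl
      push_cast at h2 ⊢
      rw [h3, h3]
      linear_combination (ε : ℂ) * h2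
    · have h1 : ε ≠ 0 := by rcases hε with rfl | rfl <;> norm_num
      have h2 : |(M' : ℚ)| ≠ 0 := by
        have := hM0.ne'
        exact_mod_cast this
      have h3 : |(D : ℚ)| ≠ 0 := by
        have := hD0.ne'
        exact_mod_cast this
      exact mul_ne_zero h1 (div_ne_zero h2 h3)
    · rw [allOdd_val hAO]
      exact val_zero D M' hDo hMo ε hε

end core

end proof

/-- **Main theorem.** Let `W` be a Weierstrass equation with integral coefficients and negative
discriminant `Δ`; let `f` be the newform of `W`, of a level `N` with the same prime divisors as `Δ`; let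
`Λ` be the period lattice of the differential `dx / (2 y + a₁ x + a₃)` of `W` (the lattice with
`g₂ = c₄ / 12`, `g₃ = c₆ / 216`), and assume that `c` times the periods of `2 π i f(z) dz` on `Γ₀(N)` are in
`Λ` for an odd `c` (the Manin constant is odd).  Assume that the 2-part of the Birch and Swinnerton-Dyer
conjecture holds for `W` over `ℚ` and that its terms are odd.  Let `m` be squarefree with `l ∤ 2 Δ` and
`a_l` odd for all primes `l` that divide `m`, `M` the `m`-th cyclotomic field, `K` a subfield of degree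
`2^n` such that the places that divide `2 Δ` have a residue field of prime order, that is, the primes
that divide `2 Δ` split completely in `K`.  Then the 2-part of the Birch and Swinnerton-Dyer conjecture
holds for `W` over `K`, and its terms are odd. -/
theorem result {N : ℕ} [NeZero N] (W : WeierstrassCurve ℤ) (hΔ : W.Δ < 0)
    (f : CuspForm (Gamma0 N : Subgroup (GL (Fin 2) ℝ)) 2) (hf : IsNewform W N f)
    (Λ : PeriodPair) (hg₂ : Λ.g₂ = (W.c₄ : ℂ) / 12) (hg₃ : Λ.g₃ = (W.c₆ : ℂ) / 216)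
    (hman : ∃ c : ℤ, Odd c ∧ ∀ γ ∈ Gamma0 N, ∀ z : ℍ,
      (c : ℂ) * (prim f ((γ • z : ℍ) : ℂ) - prim f (z : ℂ)) ∈ Λ.lattice)
    (hB : BSDTwo ℚ W) (hO : AllOdd ℚ W)
    (m : ℕ) [NeZero m] (hsq : Squarefree m)
    (hm : ∀ l : ℕ, l.Prime → l ∣ m → ¬ (l : ℤ) ∣ 2 * W.Δ ∧ Odd ((l : ℤ) - pts W (ZMod l)))
    (M : Type) [Field M] [NumberField M] [IsCyclotomicExtension {m} ℚ M]
    (K : IntermediateField ℚ M) (n : ℕ) (hn : Module.finrank ℚ K = 2 ^ n)
    (hsplit : ∀ v : HeightOneSpectrum (𝓞 K), ((2 * W.Δ : ℤ) : 𝓞 K) ∈ v.asIdeal →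
      (Ideal.absNorm v.asIdeal).Prime) :
    BSDTwo K W ∧ AllOdd K W :=
  core Pool.Agent.Y93.G.s_inv Pool.Agent.Y141.G2.s_kump Pool.Agent.Y852.GS.s_spl
    Pool.Agent.Y76.GPar.s_par (Pool.Agent.Y710.CV.s_conv Pool.Agent.Y46.G2.s_emb)
    (Pool.Agent.Y67.LZ.s_lz Pool.Agent.Y500.G.s_fl) Pool.Agent.Y125.DQ.s_descq
    Pool.Agent.Y355.G.s_desc Pool.Agent.Y779.G.s_tamg Pool.Agent.Y852.GS.s_tams
    Pool.Agent.Y852.GS.s_mins Pool.Agent.Y288.G.s_perr Pool.Agent.Y288.G.s_perc
    Pool.Agent.Y238.G.s_hasp Pool.Agent.Y563.G.s_epq Pool.Agent.Y255.LT.s_lat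
    W hΔ f hf Λ hg₂ hg₃ hman hB hO m hsq hm M K n hn hsplit

end Pool.Agent.Results.MP_9ab903_nt.TwoPartLifting
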