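import Pool.Agent.Y699.R10
import Pool.Agent.Y699.Cls
import Pool.Agent.Y715.Z.Sel
import Pool.Agent.Y715.Z.Tpr

/-!
# The 2-part of the strong conjecture of Birch and Swinnerton-Dyer for a positive proportion of the
# elliptic curves over `ℚ(i)` with `j`-invariant `1728`

`K` is a number field with an isomorphism `e` of the ring `ℤ[i]` of Gaussian integers with its ring
of integers (so `K = ℚ(i)`).  Every elliptic curve over `K` with `j = 1728` is isomorphic to
`E_D : y² = x³ + D x` for exactly one Gaussian integer `D` that no fourth power of a prime divides.  We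
prove, for a positive proportion of all these `D`, ordered by norm: `E_D(K)` has two elements,
the 2-primary part of `Ш(E_D/K)` is trivial, `L(E_D/K, s)` is entire, `L(E_D/K, 1) ≠ 0`, and
`L(E_D/K, 1) √|disc K| #E_D(K)² / (Ω ∏ c_v)`, which should be the order of `Ш(E_D/K)`, is a unit at
every valuation of `ℂ` above `2`.

The members of the positive proportion are squarefree `D ≡ 1 mod 2 + 2i` with `N(D) ≡ 13 mod 16`
for which a graph made from the quadratic residue symbols of the prime factors of `D` has an odd number of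
spanning trees.  The central values and the count are from the library of helper699, the general
descent by an isogeny of degree two from the library of helper682.
-/

set_option autoImplicit false

namespace Pool.Agent.Results.MP_9ab903_nt.TwoPartQuarticProportion

open NumberField IsDedekindDomain

/-- The curve `y² = x³ + D x`. -/
noncomputable def curve {K : Type} [Field K] [NumberField K] (e : GaussianInt ≃+* 𝓞 K)
    (D : GaussianInt) : WeierstrassCurve K :=
  ⟨0, 0, 0, algebraMap (𝓞 K) K (e D), 0⟩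

open scoped Classical in
/-- The equation `E` is minimal at every finite place `v`, and `c v` is the Tamagawa number of `E` at
`v`: the index in `E(K_v)` of the subgroup of the points of nonsingular reduction. -/
def IsTamagawa {K : Type} [Field K] [NumberField K] (E : WeierstrassCurve K)
    (c : HeightOneSpectrum (𝓞 K) → ℕ) : Prop :=
  (∀ v : HeightOneSpectrum (𝓞 K),
    (E.baseChange (v.adicCompletion K)).IsMinimal (v.adicCompletionIntegers K) ∧
    ∃ H : AddSubgroup (E.baseChange (v.adicCompletion K)).toAffine.Point,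
      (∀ P, P ∈ H ↔ Pool.Agent.Y696.NonsingRed Valued.v (E.baseChange (v.adicCompletion K)) P) ∧
      H.index = c v) ∧
  {v | c v ≠ 1}.Finite

/-- `Λ` is the lattice of periods of the differential `dx / (2y + a₁x + a₃)` of the curve `E`, embedded
in the complex numbers by `σ`. -/
def IsPeriodLattice {K : Type} [Field K] (E : WeierstrassCurve K) (σ : K →+* ℂ)
    (Λ : PeriodPair) : Prop :=
  Λ.g₂ = σ E.c₄ / 12 ∧ Λ.g₃ = σ E.c₆ / 216

/-- Twice the area of a fundamental parallelogram of the lattice. -/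
noncomputable def period (Λ : PeriodPair) : ℝ := 2 * |((starRingEnd ℂ) Λ.ω₁ * Λ.ω₂).im|

/-- The conjecture of Birch and Swinnerton-Dyer, the formula up to units at the valuations above `2`,
for a curve `E` over an imaginary quadratic field `K` with `E(K)` finite and the 2-primary part
of `Ш(E/K)` trivial:
`L(E/K, s)` is entire, `L(E/K, 1) ≠ 0`, and `L(E/K, 1) √|disc K| #E(K)² / (Ω ∏ c_v)` is a unit
at every valuation `w` of the field of complex numbers with `w 2 < 1`. -/
def TwoPart {K : Type} [Field K] [NumberField K] (E : WeierstrassCurve K) : Prop :=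
  Finite E.toAffine.Point ∧
  (∀ (n : ℕ) (x : Pool.Agent.TH841.NF.D.Sha E), 2 ^ n • x = 0 → x = 0) ∧
  ∃ (L : ℂ → ℂ) (c : HeightOneSpectrum (𝓞 K) → ℕ),
    Differentiable ℂ L ∧
    (∀ s : ℂ, 3 / 2 < s.re →
      LSeriesSummable ((fun n : ℤ => (n : ℂ)) ∘ E.LFunction) s ∧ L s = E.LSeries s) ∧
    L 1 ≠ 0 ∧
    IsTamagawa E c ∧
    ∀ σ : K →+* ℂ, (∃ Λ : PeriodPair, IsPeriodLattice E σ Λ) ∧
      ∀ Λ : PeriodPair, IsPeriodLattice E σ Λ →
        ∀ (Γ : Type) [LinearOrderedCommGroupWithZero Γ] (w : Valuation ℂ Γ), w 2 < 1 →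
          w (L 1 * (Real.sqrt |(discr K : ℝ)| : ℝ) * (Nat.card E.toAffine.Point : ℂ) ^ 2 /
            ((period Λ : ℂ) * ((∏ᶠ v, c v : ℕ) : ℂ))) = 1

/-- `D` is not zero and no fourth power of a prime divides it. -/
def FourthPowerFree (D : GaussianInt) : Prop := D ≠ 0 ∧ ∀ π : GaussianInt, Prime π → ¬ π ^ 4 ∣ D

/-- All the parameters `D` of norm at most `X`; each of them is one elliptic curve over `ℚ(i)` with
`j = 1728`, up to isomorphism. -/
def Family (X : ℕ) : Set GaussianInt := {D | FourthPowerFree D ∧ D.norm ≤ X}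

/-- The parameters `D` in `Family X` such that, for `K = ℚ(i)` (every number field `K` with an
isomorphism `e` of `ℤ[i]` with its ring of integers), the curve `E_D : y² = x³ + D x` over `K`
has exactly two points over `K` and satisfies `TwoPart`. -/
def Proved (X : ℕ) : Set GaussianInt :=
  {D | D ∈ Family X ∧
    ∀ (K : Type) [Field K] [NumberField K] (e : GaussianInt ≃+* 𝓞 K),
      Nat.card (curve e D).toAffine.Point = 2 ∧ TwoPart (curve e D)}

/-- The criterion. -/
theorem curve_good {D : GaussianInt} (hg : Pool.Agent.Y699.Good4 D) (K : Type) [Field K]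
    [NumberField K] (e : GaussianInt ≃+* 𝓞 K) :
    Nat.card (curve e D).toAffine.Point = 2 ∧ TwoPart (curve e D) := by
  have hc2 := Pool.Agent.Y699.comp_mod hg.ps.prm hg.nm
  have hc : Nat.card (curve e D).toAffine.Point = 2 :=
    Pool.Agent.Y699.card_pts4 (Pool.Agent.Y699.neg_not_sq hg e) two_ne_zero
      (fun x y h => Pool.Agent.Y699.crit_pts4 hg e h)
  have hD0 : algebraMap (𝓞 K) K (e D) ≠ 0 := Pool.Agent.Y715.Z.em0_ne e hg.ps.ne
  have hT : Pool.Agent.Y682.IsT (curve e D) 0 (Pool.Agent.Y715.Z.em0 e D) :=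
    { h1 := rfl, h2 := rfl, h3 := rfl, h4 := rfl, h6 := rfl, hB := hD0
      hD := by
        rw [zero_pow two_ne_zero, zero_sub, neg_ne_zero]
        exact mul_ne_zero (by norm_num) hD0 }
  have hP := Pool.Agent.Y715.Z.two_of_good hg
  have hp := Pool.Agent.Y699.fam_PF hg.ps.ne
  obtain ⟨hcf, hcp⟩ := Pool.Agent.Y715.Z.cT_prod e hg.ps
  refine ⟨hc, Nat.finite_of_card_ne_zero (by rw [hc]; norm_num),
    fun n x hx => Pool.Agent.Y715.Z.sha_pow e hg hT n x hx,
    Pool.Agent.Y699.LG (Pool.Agent.Y699.XX4 hp Finset.univ Pool.Agent.Y699.on1),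
    Pool.Agent.Y715.Z.cT e D,
    Pool.Agent.Y699.LG_diff (Pool.Agent.Y699.XH hp (Pool.Agent.Y699.sum_wq hg)),
    fun s hs => Pool.Agent.Y715.Z.lser e hg hs,
    Pool.Agent.Y699.LG_one (Pool.Agent.Y699.LH_ne4 hp (Pool.Agent.Y699.sum_wq hg)
      (Pool.Agent.Y699.ker_of_good hg.good)),
    ⟨fun v => ?_, hcf⟩, fun σ => ?_⟩
  · have hbc : (curve e D).baseChange (v.adicCompletion K) = Pool.Agent.Y715.Z.q4
        (algebraMap K (v.adicCompletion K) (Pool.Agent.Y715.Z.em0 e D)) :=
      Pool.Agent.Y715.Z.q4_map _ _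
    rw [hbc]
    exact ⟨Pool.Agent.Y715.Z.min4 e hg.ps.sqf hc2.1 hc2.2 hP v,
      Pool.Agent.Y715.Z.tam e hg.ps.sqf hc2.1 hc2.2 hP v⟩
  · have h4 : σ (curve e D).c₄ / 12 = -4 * σ (Pool.Agent.Y715.Z.em0 e D) := by
      have h5 : (curve e D).c₄ = -48 * Pool.Agent.Y715.Z.em0 e D := Pool.Agent.Y715.Z.q4_c₄ _
      rw [h5, map_mul, map_neg, map_ofNat]
      ring
    have h6 : σ (curve e D).c₆ / 216 = 0 := by
      have h7 : (curve e D).c₆ = 0 := by
        simp only [curve, WeierstrassCurve.c₆, WeierstrassCurve.b₂, WeierstrassCurve.b₄,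
          WeierstrassCurve.b₆]
        ring
      rw [h7, map_zero, zero_div]
    have hδ := Pool.Agent.Y715.Z.norm_emb e σ D
    have hσ0 : σ (Pool.Agent.Y715.Z.em0 e D) ≠ 0 := by
      rw [Ne, map_eq_zero]; exact hD0
    refine ⟨?_, fun Λ hΛ Γ _ w hw => ?_⟩
    · obtain ⟨Λ, h8, h9⟩ := Pool.Agent.Y715.Z.per_ex hσ0
      exact ⟨Λ, by rw [h4]; exact h8, by rw [h6]; exact h9⟩
    · have h10 := Pool.Agent.Y715.Z.val_quot hg hδ (hΛ.1.trans h4) (hΛ.2.trans h6) w hw
      rw [Pool.Agent.Y715.Z.sqrt_discr e, hc, hcp]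
      refine Eq.trans ?_ h10
      unfold period
      congr 1
      push_cast
      norm_num

/-- Every elliptic curve over `ℚ(i)` with `j = 1728` is isomorphic to `y² = x³ + D x` for exactly one
`D` that no fourth power of a prime divides. -/
theorem classification {K : Type} [Field K] [NumberField K] (e : GaussianInt ≃+* 𝓞 K)
    (E : WeierstrassCurve K) [E.IsElliptic] (hj : E.j = 1728) :
    ∃! D : GaussianInt, FourthPowerFree D ∧
      ∃ C : WeierstrassCurve.VariableChange K, C • E = curve e D := by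
  let _ : Algebra GaussianInt K := ((algebraMap (𝓞 K) K).comp (e : GaussianInt →+* 𝓞 K)).toAlgebra
  have _ : IsFractionRing GaussianInt K := IsFractionRing.of_ringEquiv_left e (fun _ => rfl)
  exact Pool.Agent.Y699.cls1728 E hj

theorem family_finite (X : ℕ) : (Family X).Finite := by
  refine (Pool.Agent.Y699.fin_norm_le X).subset ?_
  rintro D ⟨-, h⟩
  have h0 := GaussianInt.norm_nonneg D
  show D.norm.natAbs ≤ X
  omega

/-- There are at most `9 X` parameters of norm at most `X`. -/
theorem family_le {X : ℕ} (hX : 1 ≤ X) : (Family X).ncard ≤ 9 * X := by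
  classical
  set s := Nat.sqrt X with hs
  have hs1 : 1 ≤ s := Nat.le_sqrt.2 (by omega)
  set B : Finset (ℤ × ℤ) := (Finset.Icc (-(s : ℤ)) s) ×ˢ (Finset.Icc (-(s : ℤ)) s) with hB
  have hinj : Set.InjOn (fun D : GaussianInt => (D.re, D.im)) (Family X) := by
    intro a _ b _ hab
    simp only [Prod.mk.injEq] at hab
    exact Zsqrtd.ext hab.1 hab.2
  have hmaps : ∀ D ∈ Family X, (fun D : GaussianInt => (D.re, D.im)) D ∈ (B : Set (ℤ × ℤ)) := by
    rintro D ⟨-, h⟩
    have h1 : D.norm = D.re ^ 2 + D.im ^ 2 := by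
      rw [Zsqrtd.norm_def]; ring
    have h4 : D.re.natAbs ≤ s := by
      rw [hs, Nat.le_sqrt']; zify; rw [sq_abs]; nlinarith [sq_nonneg D.im]
    have h5 : D.im.natAbs ≤ s := by
      rw [hs, Nat.le_sqrt']; zify; rw [sq_abs]; nlinarith [sq_nonneg D.re]
    rw [hB, Finset.mem_coe, Finset.mem_product, Finset.mem_Icc, Finset.mem_Icc]
    refine ⟨⟨?_, ?_⟩, ⟨?_, ?_⟩⟩ <;> simp only <;> omega
  have h1 := Set.ncard_le_ncard_of_injOn _ hmaps hinj (Finset.finite_toSet B)
  rw [Set.ncard_coe_finset] at h1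
  refine h1.trans ?_
  have h2 : (Finset.Icc (-(s : ℤ)) s).card = 2 * s + 1 := by
    rw [Int.card_Icc]; omega
  rw [hB, Finset.card_product, h2]
  have h3 : s * s ≤ X := Nat.sqrt_le X
  nlinarith

/-- **Main theorem.**  Let `K = ℚ(i)`.  There is `c > 0` such that for all large `X` at least the
proportion `c` of all Gaussian integers `D` of norm at most `X` that no fourth power of a prime divides,
and at least `c X` of them, have the property that for `E_D : y² = x³ + D x` over `K`: `E_D(K)` has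
exactly two elements, the 2-primary part of `Ш(E_D/K)` is trivial, `L(E_D/K, s)` is entire with
`L(E_D/K, 1) ≠ 0`, and `L(E_D/K, 1) √|disc K| #E_D(K)² / (Ω ∏ c_v)` is a unit at every valuation above
`2`.  By the theorem `classification` these `D` are the isomorphism classes of the
elliptic curves over `K` with `j`-invariant `1728`. -/
theorem result : ∃ c : ℝ, 0 < c ∧ ∃ X₀ : ℕ, ∀ X : ℕ, X₀ ≤ X →
    c * ((Family X).ncard : ℝ) ≤ ((Proved X).ncard : ℝ) ∧ c * X ≤ ((Proved X).ncard : ℝ) := by
  obtain ⟨c, hc, X₀, h⟩ := Pool.Agent.Y699.positive₄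
  have key : ∀ X : ℕ, X₀ ≤ X → c * X ≤ ((Proved X).ncard : ℝ) := by
    intro X hX
    refine (h X hX).trans ?_
    have h1 : ((Pool.Agent.Y699.GB₄ X : Finset GaussianInt) : Set GaussianInt) ⊆ Proved X := by
      intro D hD
      have h2 : D ∈ Pool.Agent.Y699.SB X ∧ Pool.Agent.Y699.Good4 D := by
        have h0 := Finset.mem_coe.1 hD
        unfold Pool.Agent.Y699.GB₄ at h0
        classical
        exact Finset.mem_filter.1 h0
      have h3 := (Pool.Agent.Y699.mem_SB).1 h2.1
      refine ⟨⟨⟨h3.2.ne, fun π hπ h5 => ?_⟩, ?_⟩, fun K _ _ e => curve_good h2.2 K e⟩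
      · exact hπ.not_isUnit (h3.2.sqf π (dvd_trans ⟨π ^ 2, by ring⟩ h5))
      · have h4 : D.norm.natAbs ≤ X := h3.1
        omega
    have h5 := Set.ncard_le_ncard h1 ((family_finite X).subset fun D hD => hD.1)
    rw [Set.ncard_coe_finset] at h5
    exact_mod_cast h5
  refine ⟨c / 9, by positivity, max X₀ 1, fun X hX => ?_⟩
  have hX0 : X₀ ≤ X := (le_max_left _ _).trans hX
  have hX1 : 1 ≤ X := (le_max_right _ _).trans hX
  have h1 := key X hX0
  have h2 : ((Family X).ncard : ℝ) ≤ 9 * X := by exact_mod_cast family_le hX1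
  have h3 : (0 : ℝ) ≤ X := Nat.cast_nonneg X
  constructor
  · calc c / 9 * ((Family X).ncard : ℝ) ≤ c / 9 * (9 * X) :=
          mul_le_mul_of_nonneg_left h2 (by positivity)
      _ = c * X := by ring
      _ ≤ _ := h1
  · calc c / 9 * (X : ℝ) ≤ c * X := by nlinarith
      _ ≤ _ := h1

end Pool.Agent.Results.MP_9ab903_nt.TwoPartQuarticProportion
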